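import Pool.Agent.H850.RG.Tor
import Pool.Agent.H850.LA.Slv

/-!
# MP_97f789_ag: the Tate conjecture over towers of abelian and finite extensions

`F` is a field (for instance a number field) with separable closure `Ω`. We consider the Galois
extensions `K` of `F` which are reached from `F` by finitely many steps, all fields being Galois over
`F`, where each step is an abelian extension (of any, also infinite, degree) or contained in a finite
one: for instance the maximal abelian extension of `F`, the maximal metabelian extension, all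
extensions of `F` with a solvable Galois group. If the Lie algebra of the image of the Galois group of
`F` in the automorphisms of the `ℓ`-adic cohomology `V` is perfect, we prove that the image of the
Galois group of `K`, and of all finite extensions of `K`, is OPEN in the image of the Galois group of
`F`; semisimplicity, potentially stable subspaces, potentially fixed classes and the Tate conjecture
are the same over `K` and over `F`.
-/

set_option autoImplicit false
set_option linter.unusedSectionVars false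

namespace Pool.Agent.Results.MP_97f789_ag.AbelianTowers

open MeasureTheory Topology Filter

/-- A matrix over `ℤ_ℓ` viewed over `ℚ_ℓ`. -/
noncomputable def rat {ℓ : ℕ} [Fact ℓ.Prime] {N : ℕ} (g : GL (Fin N) ℤ_[ℓ]) :
    Matrix (Fin N) (Fin N) ℚ_[ℓ] :=
  (g : Matrix (Fin N) (Fin N) ℤ_[ℓ]).map (algebraMap ℤ_[ℓ] ℚ_[ℓ])

/-- A set of matrices acts semisimply: every stable subspace has a stable complement. -/
def Semisimple {ℓ : ℕ} [Fact ℓ.Prime] {N : ℕ} (S : Set (Matrix (Fin N) (Fin N) ℚ_[ℓ])) : Prop :=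
  ∀ W : Submodule ℚ_[ℓ] (Fin N → ℚ_[ℓ]), (∀ A ∈ S, ∀ x ∈ W, A.mulVec x ∈ W) →
    ∃ W' : Submodule ℚ_[ℓ] (Fin N → ℚ_[ℓ]), (∀ A ∈ S, ∀ x ∈ W', A.mulVec x ∈ W') ∧ IsCompl W W'

/-- The `ℓ`-adic cycle class map of a smooth projective variety `X` over `F` in one codimension:
the continuous action `ρ` of the Galois group on a lattice `ℤ_ℓ ^ N` of the twisted cohomology
`V = ℚ_ℓ ^ N` (for divisors `V = H²(X, ℚ_ℓ(1))`), the group `C` of cycle classes over the separable
closure (for divisors the Neron-Severi group), on which Galois acts with open stabilisers, and the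
equivariant cycle class map. -/
structure CycleMap (F Ω : Type) [Field F] [Field Ω] [Algebra F Ω] where
  ℓ : ℕ
  [prime : Fact ℓ.Prime]
  N : ℕ
  ρ : Gal(Ω/F) →* GL (Fin N) ℤ_[ℓ]
  cont : Continuous fun σ => (ρ σ : Matrix (Fin N) (Fin N) ℤ_[ℓ])
  C : Type
  [group : AddCommGroup C]
  [galois : DistribMulAction Gal(Ω/F) C]
  isOpen_stabilizer : ∀ c : C, IsOpen (MulAction.stabilizer Gal(Ω/F) c : Set Gal(Ω/F))
  cl : C →+ (Fin N → ℚ_[ℓ])
  equivariant : ∀ (σ : Gal(Ω/F)) (c : C), (rat (ρ σ)).mulVec (cl c) = cl (σ • c)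

attribute [instance] CycleMap.prime CycleMap.group CycleMap.galois

variable {F Ω : Type} [Field F] [Field Ω] [Algebra F Ω]

namespace CycleMap

variable (X : CycleMap F Ω)

/-- The cohomology group `V`. -/
abbrev V : Type := Fin X.N → ℚ_[X.ℓ]

/-- The action of a Galois element on `V`. -/
noncomputable def act (σ : Gal(Ω/F)) (v : X.V) : X.V := (rat (X.ρ σ)).mulVec v

/-- The span of all cycle classes (over the separable closure). -/
noncomputable def Alg : Submodule ℚ_[X.ℓ] X.V := Submodule.span ℚ_[X.ℓ] (Set.range X.cl)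

/-- The span of the classes of the cycles fixed by the Galois group of `L`. -/
noncomputable def AlgOver (L : IntermediateField F Ω) : Submodule ℚ_[X.ℓ] X.V :=
  Submodule.span ℚ_[X.ℓ] (X.cl '' {c | ∀ σ ∈ L.fixingSubgroup, σ • c = c})

/-- The class `v` is fixed by the Galois group of `L`. -/
def FixedOver (L : IntermediateField F Ω) (v : X.V) : Prop :=
  ∀ σ ∈ L.fixingSubgroup, X.act σ v = v

/-- The Tate conjecture over `L`: the classes fixed by the Galois group of `L` are
`ℚ_ℓ`-combinations of classes of cycles fixed by the Galois group of `L`. -/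
def TateOver (L : IntermediateField F Ω) : Prop :=
  ∀ v, X.FixedOver L v → v ∈ X.AlgOver L

/-- `V` is a semisimple representation of the Galois group of `L`. -/
def SemisimpleOver (L : IntermediateField F Ω) : Prop :=
  Semisimple ((fun σ => rat (X.ρ σ)) '' (L.fixingSubgroup : Set Gal(Ω/F)))

/-- The Galois element `σ` maps the subset `S` of `V` to itself. -/
def Preserves (σ : Gal(Ω/F)) (S : Set X.V) : Prop := ∀ v ∈ S, X.act σ v ∈ S

/-- The subspace `W` is stable under the Galois group of `L`. -/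
def StableOver (L : IntermediateField F Ω) (W : Submodule ℚ_[X.ℓ] X.V) : Prop :=
  ∀ σ ∈ L.fixingSubgroup, X.Preserves σ W

/-- The quotient `V / Alg` (for divisors `V_ℓ(Br)` of the geometric Brauer group) has no nonzero
invariants under the Galois group of `L`. -/
def NoTranscendental (L : IntermediateField F Ω) : Prop :=
  ∀ v : X.V, (∀ σ ∈ L.fixingSubgroup, X.act σ v - v ∈ X.Alg) → v ∈ X.Alg

/-- The Tate conjecture over all finite extensions `K F'` of `K`. -/
def TateAbove (K : IntermediateField F Ω) : Prop :=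
  ∀ F' : IntermediateField F Ω, FiniteDimensional F F' → X.TateOver (K ⊔ F')

/-- The quotient `V / Alg` has no nonzero invariants over any finite extension `K F'` of `K`. -/
def NoTranscendentalAbove (K : IntermediateField F Ω) : Prop :=
  ∀ F' : IntermediateField F Ω, FiniteDimensional F F' → X.NoTranscendental (K ⊔ F')

/-- `v` is fixed by the Galois group of some finite extension `K F'` of `K`. -/
def FixedAbove (K : IntermediateField F Ω) (v : X.V) : Prop :=
  ∃ F' : IntermediateField F Ω, FiniteDimensional F F' ∧ X.FixedOver (K ⊔ F') v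

/-- `W` is stable under the Galois group of some finite extension `K F'` of `K`. -/
def StableAbove (K : IntermediateField F Ω) (W : Submodule ℚ_[X.ℓ] X.V) : Prop :=
  ∃ F' : IntermediateField F Ω, FiniteDimensional F F' ∧ X.StableOver (K ⊔ F') W

/-- The square matrices over `ℚ_ℓ`. -/
abbrev Mat : Type := Matrix (Fin X.N) (Fin X.N) ℚ_[X.ℓ]

/-- The matrix `(ρ (σ) - 1) / ℓ ^ m`. -/
noncomputable def quot (m : ℕ) (σ : Gal(Ω/F)) : X.Mat :=
  ((X.ℓ : ℚ_[X.ℓ]) ^ m)⁻¹ • (rat (X.ρ σ) - 1)

/-- The matrix `A` belongs to the Lie algebra of the image of the Galois group of `F`: it is a limit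
of `(ρ (σ_m) - 1) / ℓ ^ m` with `σ_m` in this group. -/
def InLie (A : X.Mat) : Prop :=
  ∃ σ : ℕ → Gal(Ω/F), Tendsto (fun m : ℕ => X.quot m (σ m)) atTop (𝓝 A)

/-- The bracket of two matrices. -/
noncomputable def bracket (A B : X.Mat) : X.Mat := A * B - B * A

/-- The brackets of the elements of the Lie algebra of the image of the Galois group of `F`. -/
def brackets : Set X.Mat := {D | ∃ B C, X.InLie B ∧ X.InLie C ∧ D = X.bracket B C}

/-- The Lie algebra of the image of the Galois group of `F` is perfect: it is spanned by its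
brackets. -/
def Perfect : Prop := ∀ A, X.InLie A → A ∈ Submodule.span ℚ_[X.ℓ] X.brackets

/-- The image of the Galois group of `L` is open in the image of the Galois group of `F`: it contains
the image of the Galois group of a finite extension of `F`. -/
def OpenImage (L : IntermediateField F Ω) : Prop :=
  ∃ F' : IntermediateField F Ω, FiniteDimensional F F' ∧
    ∀ σ ∈ F'.fixingSubgroup, ∃ τ ∈ L.fixingSubgroup, X.ρ τ = X.ρ σ

/-- Everything is the same over `K` and over `F`:
(1) the image of the Galois group of every finite extension of `K` is open in the image of the Galois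
group of `F`;
(2) `V` is semisimple over `K` if and only if it is semisimple over `F`;
(3) the subspaces stable over some finite extension of `K` are those stable over some finite
extension of `F`;
(4) the classes fixed over some finite extension of `K` are those fixed over some finite extension
of `F`;
(5) the Tate conjecture holds over all finite extensions of `K` if and only if it holds over all
finite extensions of `F`;
(6) `V / Alg` has no invariants over any finite extension of `K` if and only if it has no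
invariants over any finite extension of `F`. -/
def Transfer (K : IntermediateField F Ω) : Prop :=
  (∀ F' : IntermediateField F Ω, FiniteDimensional F F' → X.OpenImage (K ⊔ F')) ∧
  (X.SemisimpleOver K ↔ X.SemisimpleOver ⊥) ∧
  (∀ W, X.StableAbove K W ↔ X.StableAbove ⊥ W) ∧
  (∀ v, X.FixedAbove K v ↔ X.FixedAbove ⊥ v) ∧
  (X.TateAbove K ↔ X.TateAbove ⊥) ∧
  (X.NoTranscendentalAbove K ↔ X.NoTranscendentalAbove ⊥)

end CycleMap

/-- The elements of the Galois group of `K` commute on `M`; if `M` is a Galois extension of `K`, its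
Galois group is abelian. -/
def AbelianStep (K M : IntermediateField F Ω) : Prop :=
  ∀ σ ∈ K.fixingSubgroup, ∀ τ ∈ K.fixingSubgroup, ∀ x ∈ M, σ (τ x) = τ (σ x)

/-- `M` is contained in a finite extension of `K`. -/
def FiniteStep (K M : IntermediateField F Ω) : Prop :=
  ∃ F' : IntermediateField F Ω, FiniteDimensional F F' ∧ M ≤ K ⊔ F'

/-- The extensions of `F` which are reached from `F` by finitely many abelian or finite steps, all
fields being Galois over `F`. -/
inductive Tower : IntermediateField F Ω → Prop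
  | base : Tower ⊥
  | abelian {K M : IntermediateField F Ω} : Tower K → K ≤ M → IsGalois F M → AbelianStep K M →
      Tower M
  | finite {K M : IntermediateField F Ω} : Tower K → K ≤ M → IsGalois F M → FiniteStep K M →
      Tower M

section Proofs

variable [IsGalois F Ω]

open Pool.Agent.H850.TF Pool.Agent.H850.RG

theorem rat_eq (X : CycleMap F Ω) (σ : Gal(Ω/F)) :
    rat (X.ρ σ) = Pool.Agent.H850.TF.rat X.ρ σ := rfl

theorem exists_field {U : Subgroup Gal(Ω/F)} (hU : IsOpen (U : Set Gal(Ω/F))) :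
    ∃ L : IntermediateField F Ω, FiniteDimensional F L ∧
      L.fixingSubgroup ≤ U := by
  have h1 : (U : Set Gal(Ω/F)) ∈ 𝓝 (1 : Gal(Ω/F)) := hU.mem_nhds U.one_mem
  rw [krullTopology_mem_nhds_one_iff] at h1
  exact h1

theorem semisimple_iff (X : CycleMap F Ω) (L : IntermediateField F Ω) :
    X.SemisimpleOver L ↔ SS (stdr X.ρ) (L.fixingSubgroup : Set Gal(Ω/F)) := by
  have h1 : ∀ W : Submodule ℚ_[X.ℓ] X.V,
      (∀ A ∈ (fun σ => rat (X.ρ σ)) '' (L.fixingSubgroup : Set Gal(Ω/F)), ∀ x ∈ W,
        A.mulVec x ∈ W) ↔ ∀ σ ∈ (L.fixingSubgroup : Set Gal(Ω/F)), ∀ x ∈ W,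
          stdr X.ρ σ x ∈ W := by
    intro W
    constructor
    · intro h σ hσ x hx
      exact h _ ⟨σ, hσ, rfl⟩ x hx
    · rintro h _ ⟨σ, hσ, rfl⟩ x hx
      exact h σ hσ x hx
  unfold CycleMap.SemisimpleOver Semisimple SS
  simp only [h1]

theorem semisimple_bot (X : CycleMap F Ω) :
    X.SemisimpleOver ⊥ ↔ SS (stdr X.ρ) Set.univ := by
  rw [semisimple_iff, IntermediateField.fixingSubgroup_bot, Subgroup.coe_top]

/-- descent of combinations of cycle classes -/
theorem descent (X : CycleMap F Ω) {v : X.V} (hv : v ∈ X.Alg)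
    (L : IntermediateField F Ω) (hL : X.FixedOver L v) :
    v ∈ X.AlgOver L := by
  classical
  change v ∈ Submodule.span ℚ_[X.ℓ] (X.cl '' {c | ∀ σ ∈ L.fixingSubgroup, σ • c = c})
  set H := L.fixingSubgroup with hH
  rw [CycleMap.Alg, Finsupp.mem_span_range_iff_exists_finsupp] at hv
  obtain ⟨c, hc⟩ := hv
  set U : Subgroup Gal(Ω/F) := ⨅ e : c.support, MulAction.stabilizer Gal(Ω/F) (e : X.C) with hU
  have hUopen : IsOpen (U : Set Gal(Ω/F)) := by
    rw [hU, Subgroup.coe_iInf]
    exact isOpen_iInter_of_finite fun e => X.isOpen_stabilizer e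
  have hUfix : ∀ e ∈ c.support, ∀ u ∈ U, u • e = e := by
    intro e he u hu
    rw [hU, Subgroup.mem_iInf] at hu
    exact hu ⟨e, he⟩
  have hfin : Finite (Gal(Ω/F) ⧸ U) := Subgroup.quotient_finite_of_isOpen U hUopen
  have hidx : U.FiniteIndex := Subgroup.finiteIndex_of_finite_quotient
  have hfinQ : Finite (H ⧸ U.subgroupOf H) := inferInstance
  have : Fintype (H ⧸ U.subgroupOf H) := Fintype.ofFinite _
  set n : ℕ := Fintype.card (H ⧸ U.subgroupOf H) with hn
  have hn0 : n ≠ 0 := Fintype.card_ne_zero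
  let av : X.C → X.C := fun e => ∑ q : H ⧸ U.subgroupOf H, (q.out : Gal(Ω/F)) • e
  have hav : ∀ e ∈ c.support, ∀ σ ∈ H, σ • av e = av e := by
    intro e he σ hσ
    change σ • (∑ q : H ⧸ U.subgroupOf H, (q.out : Gal(Ω/F)) • e) =
      ∑ q : H ⧸ U.subgroupOf H, (q.out : Gal(Ω/F)) • e
    rw [Finset.smul_sum]
    have h2 : ∀ q : H ⧸ U.subgroupOf H, σ • (q.out : Gal(Ω/F)) • e =
        (((⟨σ, hσ⟩ : H) • q).out : Gal(Ω/F)) • e := by
      intro q
      have h3 : ((⟨σ, hσ⟩ : H) * q.out : H)⁻¹ * ((⟨σ, hσ⟩ : H) • q).out ∈ U.subgroupOf H := by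
        rw [← QuotientGroup.eq, QuotientGroup.out_eq']
        have h4 : (q : H ⧸ U.subgroupOf H) = QuotientGroup.mk q.out := (QuotientGroup.out_eq' q).symm
        conv_rhs => rw [h4]
        rfl
      have h5 := hUfix e he _ (Subgroup.mem_subgroupOf.1 h3)
      have h6 : (((⟨σ, hσ⟩ : H) • q).out : Gal(Ω/F)) = (σ * (q.out : Gal(Ω/F))) *
          ((((⟨σ, hσ⟩ : H) * q.out : H)⁻¹ * ((⟨σ, hσ⟩ : H) • q).out : H) : Gal(Ω/F)) := by
        push_cast
        group
      rw [h6, mul_smul, h5, mul_smul]
    simp_rw [h2]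
    exact Equiv.sum_comp (MulAction.toPerm (⟨σ, hσ⟩ : H)) fun q : H ⧸ U.subgroupOf H =>
      (q.out : Gal(Ω/F)) • e
  have hconj : ∀ σ ∈ H, v = c.sum fun e a => a • X.cl (σ • e) := by
    intro σ hσ
    have h1 : (rat (X.ρ σ)).mulVec v = c.sum fun e a => a • X.cl (σ • e) := by
      have h2 : (rat (X.ρ σ)).mulVec v = (rat (X.ρ σ)).mulVecLin v := rfl
      rw [h2, ← hc, Finsupp.sum, map_sum, Finsupp.sum]
      refine Finset.sum_congr rfl fun e _ => ?_
      rw [map_smul, Matrix.mulVecLin_apply, X.equivariant]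
    rw [← h1]
    exact (hL σ hσ).symm
  have hn0' : (n : ℚ_[X.ℓ]) ≠ 0 := by exact_mod_cast hn0
  have hX2 : v = (n : ℚ_[X.ℓ])⁻¹ • ∑ q : H ⧸ U.subgroupOf H, v := by
    rw [Finset.sum_const, Finset.card_univ, ← hn, ← Nat.cast_smul_eq_nsmul ℚ_[X.ℓ], smul_smul,
      inv_mul_cancel₀ hn0', one_smul]
  have hX3 : v = ∑ e ∈ c.support, ((n : ℚ_[X.ℓ])⁻¹ * c e) • X.cl (av e) := by
    rw [hX2]
    have h4 : ∑ q : H ⧸ U.subgroupOf H, v =
        ∑ q : H ⧸ U.subgroupOf H, c.sum fun e a => a • X.cl ((q.out : Gal(Ω/F)) • e) :=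
      Finset.sum_congr rfl fun q _ => hconj _ q.out.2
    rw [h4]
    simp only [Finsupp.sum]
    rw [Finset.sum_comm, Finset.smul_sum]
    refine Finset.sum_congr rfl fun e _ => ?_
    rw [← Finset.smul_sum, smul_smul, ← map_sum]
  rw [hX3]
  refine Submodule.sum_mem _ fun e he => Submodule.smul_mem _ _ (Submodule.subset_span ?_)
  exact ⟨av e, hav e he, rfl⟩

theorem stable_alg (X : CycleMap F Ω) (σ : Gal(Ω/F)) {v : X.V} (hv : v ∈ X.Alg) :
    X.act σ v ∈ X.Alg := by
  change (rat (X.ρ σ)).mulVecLin v ∈ X.Alg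
  unfold CycleMap.Alg at hv ⊢
  induction hv using Submodule.span_induction with
  | mem x hx =>
    obtain ⟨c, rfl⟩ := hx
    rw [Matrix.mulVecLin_apply, X.equivariant]
    exact Submodule.subset_span ⟨_, rfl⟩
  | zero => rw [map_zero]; exact Submodule.zero_mem _
  | add x y _ _ h h' => rw [map_add]; exact Submodule.add_mem _ h h'
  | smul a x _ h => rw [map_smul]; exact Submodule.smul_mem _ _ h

theorem algOver_le (X : CycleMap F Ω) (L : IntermediateField F Ω) : X.AlgOver L ≤ X.Alg :=
  Submodule.span_mono (Set.image_subset_range _ _)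

theorem act_add (X : CycleMap F Ω) (σ : Gal(Ω/F)) (a b : X.V) :
    X.act σ (a + b) = X.act σ a + X.act σ b := Matrix.mulVec_add _ _ _

theorem inLie_iff (X : CycleMap F Ω) (A : Matrix (Fin X.N) (Fin X.N) ℚ_[X.ℓ]) :
    X.InLie A ↔ A ∈ Pool.Agent.H850.LA.tanH X.ρ (⊤ : Subgroup Gal(Ω/F)) := by
  rw [Pool.Agent.H850.LA.mem_tanH]
  constructor
  · rintro ⟨σ, h⟩
    exact ⟨σ, fun _ => Subgroup.mem_top _, h⟩
  · rintro ⟨σ, _, h⟩
    exact ⟨σ, h⟩

/-- the Lie algebra over a tower -/
theorem lie_tower (X : CycleMap F Ω) (hP : X.Perfect) {K : IntermediateField F Ω} (hK : Tower K) :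
    Pool.Agent.H850.LA.tanH X.ρ (⊤ : Subgroup Gal(Ω/F)) ≤
      Pool.Agent.H850.LA.tanH X.ρ K.fixingSubgroup := by
  induction hK with
  | base => rw [IntermediateField.fixingSubgroup_bot]
  | @abelian K M _ hKM hG hab ih =>
    intro A hA
    have h1 := hP A ((inLie_iff X A).2 hA)
    have h2 : Submodule.span ℚ_[X.ℓ] X.brackets ≤
        Pool.Agent.H850.LA.tanH X.ρ M.fixingSubgroup := by
      rw [Submodule.span_le]
      rintro _ ⟨B, C, hB, hC, rfl⟩
      refine Pool.Agent.H850.LA.tanH_commutator X.ρ (H := K.fixingSubgroup) ?_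
        (ih ((inLie_iff X B).1 hB)) (ih ((inLie_iff X C).1 hC))
      intro σ hσ τ hτ
      rw [IntermediateField.mem_fixingSubgroup_iff]
      intro x hx
      have hMn : M.fixingSubgroup.Normal := (InfiniteGalois.normal_iff_isGalois M).2 hG
      have h3 := hab σ⁻¹ (Subgroup.inv_mem _ hσ) τ⁻¹ (Subgroup.inv_mem _ hτ) x hx
      change (σ * τ * σ⁻¹ * τ⁻¹) x = x
      have h4 : (σ * τ * σ⁻¹ * τ⁻¹) x = σ (τ (σ⁻¹ (τ⁻¹ x))) := rfl
      rw [h4, h3]
      have h5 : τ (τ⁻¹ (σ⁻¹ x)) = σ⁻¹ x := τ.apply_symm_apply _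
      rw [h5]
      exact σ.apply_symm_apply _
    exact h2 h1
  | @finite K M _ hKM hG hfin ih =>
    obtain ⟨F', hF', hle⟩ := hfin
    refine ih.trans ((Pool.Agent.H850.LA.tanH_inf_open X.ρ K.fixingSubgroup
      F'.fixingSubgroup_isOpen).trans (Pool.Agent.H850.LA.tanH_mono X.ρ ?_))
    rw [← IntermediateField.fixingSubgroup_sup]
    exact IntermediateField.fixingSubgroup_le hle

/-- the image is open if the Lie algebra is the same -/
theorem open_image (X : CycleMap F Ω) (L : IntermediateField F Ω)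
    (hT : Pool.Agent.H850.LA.tanH X.ρ (⊤ : Subgroup Gal(Ω/F)) ≤
      Pool.Agent.H850.LA.tanH X.ρ L.fixingSubgroup) : X.OpenImage L := by
  obtain ⟨m, h1⟩ := Pool.Agent.H850.LA.open_of_tan X.ρ hT
  obtain ⟨F', hF', hle⟩ := exists_field (Pool.Agent.H850.LA.isOpen_levSub X.ρ X.cont m)
  have hcont : Continuous fun σ : Gal(Ω/F) => Pool.Agent.H850.TF.rat X.ρ σ :=
    (Pool.Agent.H850.TF.continuous_toQ).comp X.cont
  have hcomp : IsCompact (Pool.Agent.H850.TF.rat X.ρ ''
      (L.fixingSubgroup : Set Gal(Ω/F))) :=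
    ((InfiniteGalois.fixingSubgroup_isClosed L).isCompact).image hcont
  refine ⟨F', hF', fun σ hσ => ?_⟩
  have h3 := h1 σ (hle hσ)
  rw [hcomp.isClosed.closure_eq] at h3
  obtain ⟨τ, hτ, hτσ⟩ := h3
  refine ⟨τ, hτ, ?_⟩
  apply Units.ext
  have h4 : Function.Injective (fun A : Matrix (Fin X.N) (Fin X.N) ℤ_[X.ℓ] =>
      A.map (algebraMap ℤ_[X.ℓ] ℚ_[X.ℓ])) :=
    Matrix.map_injective (IsFractionRing.injective ℤ_[X.ℓ] ℚ_[X.ℓ])
  exact h4 hτσ

theorem sup_le_fixing (K F' : IntermediateField F Ω) :
    (K ⊔ F').fixingSubgroup ≤ F'.fixingSubgroup := IntermediateField.fixingSubgroup_le le_sup_right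

theorem isGalois_of_tower {K : IntermediateField F Ω} (hK : Tower K) : IsGalois F K := by
  cases hK with
  | base => exact isGalois_bot
  | abelian _ _ h _ => exact h
  | finite _ _ h _ => exact h

theorem transfer (X : CycleMap F Ω) (K : IntermediateField F Ω) (hK : Tower K)
    (hP : X.Perfect) : X.Transfer K := by
  have hG := isGalois_of_tower hK
  have hKn : K.fixingSubgroup.Normal := (InfiniteGalois.normal_iff_isGalois K).2 hG
  have hopen : ∀ F' : IntermediateField F Ω, FiniteDimensional F F' → X.OpenImage (K ⊔ F') := by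
    intro F' hF'
    refine open_image X _ ?_
    rw [IntermediateField.fixingSubgroup_sup]
    exact (lie_tower X hP hK).trans (Pool.Agent.H850.LA.tanH_inf_open X.ρ _
      F'.fixingSubgroup_isOpen)
  have hact : ∀ {σ τ : Gal(Ω/F)}, X.ρ τ = X.ρ σ → ∀ v, X.act σ v = X.act τ v := by
    intro σ τ h v
    unfold CycleMap.act
    rw [h]
  have hFA : ∀ v, X.FixedAbove K v ↔ X.FixedAbove ⊥ v := by
    intro v
    constructor
    · rintro ⟨F', hF', hv⟩
      obtain ⟨F₁, hF₁, h1⟩ := hopen F' hF'
      refine ⟨F₁, hF₁, fun σ hσ => ?_⟩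
      obtain ⟨τ, hτ, hτσ⟩ := h1 σ (sup_le_fixing _ _ hσ)
      rw [hact hτσ]
      exact hv τ hτ
    · rintro ⟨F', hF', hv⟩
      exact ⟨F', hF', fun σ hσ => hv σ (by
        rw [bot_sup_eq]
        exact sup_le_fixing _ _ hσ)⟩
  refine ⟨hopen, ?_, ?_, hFA, ?_, ?_⟩
  · rw [semisimple_bot, semisimple_iff]
    constructor
    · intro h
      obtain ⟨F₁, hF₁, h1⟩ := hopen ⊥ inferInstance
      have hfin : Finite (Gal(Ω/F) ⧸ F₁.fixingSubgroup) :=
        Subgroup.quotient_finite_of_isOpen _ F₁.fixingSubgroup_isOpen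
      have hidx₁ : F₁.fixingSubgroup.FiniteIndex := Subgroup.finiteIndex_of_finite_quotient
      set H : Subgroup Gal(Ω/F) := (K.fixingSubgroup.map X.ρ).comap X.ρ with hH
      have hle : F₁.fixingSubgroup ≤ H := by
        intro σ hσ
        obtain ⟨τ, hτ, hτσ⟩ := h1 σ hσ
        rw [sup_bot_eq] at hτ
        exact ⟨τ, hτ, hτσ⟩
      have hidx : H.FiniteIndex := Subgroup.finiteIndex_of_le hle
      refine SS.of_finiteIndex (H := H) ?_
      intro W hW
      have hmem : ∀ s ∈ K.fixingSubgroup, s ∈ H := fun s hs => ⟨s, hs, rfl⟩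
      obtain ⟨W', hW', hc⟩ := h W (fun s hs x hx => hW s (hmem s hs) x hx)
      refine ⟨W', ?_, hc⟩
      rintro s ⟨τ, hτ, hτs⟩ x hx
      have h2 : stdr X.ρ s x = stdr X.ρ τ x := hact hτs x
      rw [h2]
      exact hW' τ hτ x hx
    · intro h
      exact h.clifford _
  · intro W
    constructor
    · rintro ⟨F', hF', hW⟩
      obtain ⟨F₁, hF₁, h1⟩ := hopen F' hF'
      refine ⟨F₁, hF₁, fun σ hσ v hv => ?_⟩
      obtain ⟨τ, hτ, hτσ⟩ := h1 σ (sup_le_fixing _ _ hσ)
      rw [hact hτσ]
      exact hW τ hτ v hv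
    · rintro ⟨F', hF', hW⟩
      exact ⟨F', hF', fun σ hσ => hW σ (by
        rw [bot_sup_eq]
        exact sup_le_fixing _ _ hσ)⟩
  · constructor
    · intro hT F' hF' v hv
      refine descent X ?_ _ hv
      exact algOver_le X _ (hT F' hF' v fun τ hτ => hv τ (by
        rw [bot_sup_eq]
        exact sup_le_fixing _ _ hτ))
    · intro hT F' hF' v hv
      obtain ⟨F'', hF'', hv''⟩ := (hFA v).1 ⟨F', hF', hv⟩
      exact descent X (algOver_le X _ (hT F'' hF'' v hv'')) _ hv
  · constructor
    · intro hN F' hF' v hv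
      exact hN F' hF' v fun τ hτ => hv τ (by
        rw [bot_sup_eq]
        exact sup_le_fixing _ _ hτ)
    · intro hN F' hF' v hv
      obtain ⟨F₁, hF₁, h1⟩ := hopen F' hF'
      refine hN F₁ hF₁ v fun σ hσ => ?_
      obtain ⟨τ, hτ, hτσ⟩ := h1 σ (sup_le_fixing _ _ hσ)
      rw [hact hτσ]
      exact hv τ hτ

end Proofs

/-- **The Tate conjecture over towers of abelian and finite extensions.** Let `F` be a field, for
instance a number field, `X` a cycle class map of a variety over `F` such that the Lie algebra of the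
image of the Galois group in the automorphisms of the `ℓ`-adic cohomology `V` is perfect, and `K` an
extension of `F` which is reached by finitely many steps, abelian (of any degree) or finite, all
fields being Galois over `F`. Then the image of the Galois group of every finite extension of `K` is
open in the image of the Galois group of `F`, and semisimplicity, the potentially stable subspaces,
the potentially fixed classes, the Tate conjecture over all finite extensions and the vanishing of
the invariants of `V / Alg` are the same over `K` and over `F`. -/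
theorem result [IsGalois F Ω] (X : CycleMap F Ω) (hX : X.Perfect) (K : IntermediateField F Ω)
    (hK : Tower K) : X.Transfer K :=
  transfer X K hK hX

end Pool.Agent.Results.MP_97f789_ag.AbelianTowers
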