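import Pool.Agent.H851.ZD.Pub

/-!
# The Tate conjecture for divisors on varieties with `h^{2,0} = 1`: one prime number is enough

Let `X` be a smooth projective surface (or a variety of any dimension) over a number field `K` with
`h^{2,0} = 1`, let `r` be its Picard number over the algebraic closure of `K`, and `V_ℓ = H^2(X, ℚ_ℓ)`. The
Tate conjecture for divisors at the prime number `ℓ` says that the space of the (potential) Tate classes in
`V_ℓ(1)`, the vectors fixed by an open subgroup of the Galois group, has dimension `r`. It is not known in
general: the theorems of André, Tankeev and Moonen for `h^{2,0} = 1` need a family of varieties with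
nonconstant period map, and it is not known that the conjecture for one `ℓ` implies the conjecture for all
`ℓ`. This is what is proved here, in many cases, WITHOUT any assumption on moduli. The theorem is on
representations of K3 type, so it applies to the realizations of all pure motives with the Hodge numbers
`(1, b - 2, 1)`, for example `H^4(X)(1)` for cubic fourfolds, or a direct factor of `H^2(X)` with
`h^{2,0} = 1` for a surface with larger `p_g`.

The JUMP RANK of `V_ℓ` is the smallest multiplicity of the eigenvalue `0` of an endomorphism of `V_ℓ` which is skew
for the cup product and commutes with all Tate endomorphisms (the endomorphisms which commute with an open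
subgroup of the Galois group). It is a number between the dimension `t` of the space of the Tate classes and `b`,
and it is congruent to `b` modulo `2`. (Remark, not used and not proved here: over an algebraic closure it is `t`
plus the number of the odd-dimensional orthogonal blocks of the transcendental part `T`, the orthogonal
complement of the Tate classes.)

**Theorem.** Let `V_ℓ` be semisimple.

(1) The jump rank of `V_ℓ` is the minimum over the places `v` of degree one of good reduction of the number
`ρ_v` of the zeros `p ζ`, `ζ` a root of unity, of the Frobenius polynomial at `v`, that is, of the Picard number of the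
reduction at `v` over the algebraic closure of the residue field as predicted by the Tate conjecture; and the minimum
is attained at infinitely many places. If all Tate endomorphisms are scalars on `T` the jump rank is `t` if
`dim T` is even and `t + 1` if `dim T` is odd. If there is a Tate endomorphism which is skew and injective on `T`
(complex multiplication), it is `t`.

(2) So the jump rank does not depend on `ℓ`: if `V_ℓ'` is another semisimple representation with the same
Frobenius polynomials, its jump rank is the same. And for all representations `V_ℓ'` with the same Frobenius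
polynomials, semisimple or not, the dimension of the space of the Tate classes is at most the jump rank of `V_ℓ`.

(3) If the Tate conjecture for divisors is true at ONE prime number `ℓ`, `V_ℓ` is semisimple and the jump rank of
`V_ℓ` is `r` (for example if the Tate endomorphisms of `V_ℓ` are scalars on `T` and `b - r` is even, or in the case
of complex multiplication), then the Tate conjecture for divisors is true at ALL prime numbers. In general
the space of the Tate classes in `V_ℓ'(1)` has, for all `ℓ'`, at most the dimension of the jump rank of `V_ℓ`, which is
`r` or `r + 1` if the Tate endomorphisms of `V_ℓ` are scalars on `T`: at most one class is missing.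

(4) Over `ℚ` no semisimplicity has to be assumed in (3), and it follows for all prime numbers: if
the Tate conjecture for divisors is true at one prime number `ℓ`, then `V_ℓ` is semisimple, and if the jump rank of
`V_ℓ` is `r` then for all `ℓ'` the Tate conjecture for divisors is true and `V_ℓ'` is semisimple.

The condition on the jump rank is natural: by (1) it says that there are places where the Picard number does not
jump, and it cannot be removed by the comparison of Frobenius polynomials, since the groups `SO(2 k + 1)` and
`SO(2 k)` (with a trivial summand) have the same characteristic polynomials.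

The proof of (1). Let `𝔤` be the Lie algebra which consists of the endomorphisms killing all Tate tensors in the
tensor powers of `V(1)` and its dual; it consists of the skew endomorphisms which commute with the Tate
endomorphisms (`Pool.Agent.Results.MP_b8862a_ag.KThreeEndomorphisms`). First, every subspace of a space of families
of forms on `V` (matrix coefficients of the group) which is stable under a subgroup `Δ` of finite index of
the Galois group is stable under `𝔤`. This needs an argument, as it is not assumed that the Lie algebra of
the image of Galois is algebraic, or that the tensor powers of `V` are semisimple: for an arbitrary representation `W` of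
the Galois group the elements of `𝔤` are lifted to operators on `V ⊕ W` which kill all Tate tensors and preserve
all subspaces stable under subgroups of finite index, by ordinary Frobenius elements and the six exponentials theorem
(`Pool.Agent.H851.ZD.lift`). So if a polynomial `P` in the matrix coefficients vanishes on `Δ`, it vanishes on the
one parameter groups `c ^ D` for all semisimple `D` in `𝔤 ⊗ C` with integral eigenvalues; here `C` is an algebraically
closed field. If `X` is in `𝔤` let `D` be the element which is `± 1` on the generalized eigenspaces of `X` for
the eigenvalues `λ ≠ 0`, with opposite signs for `λ` and `-λ`, and `0` on the one for `λ = 0`. Then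
`(-1) ^ D` has the eigenvalue `1` with the multiplicity of the eigenvalue `0` of `X`. So there is an
element of `Δ` for which the multiplicity of the eigenvalue `1` is not larger. It may be taken
close to `1`, and it may be replaced by a Frobenius element by the Chebotarev density theorem; the eigenvalues of
an element close to `1` which are roots of unity are equal to `1`. Conversely a suitable power `g` of a Frobenius
element gives the element `g - g⁻¹` of `𝔤`.

The facts on `V_ℓ` which are used are collected in the structure `IsK3Type`: `V_ℓ` is continuous, with a form with values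
in `ℚ_ℓ(-2)`; and at almost all primes `p` and places of degree one above `p` the characteristic polynomial of the
Frobenius element is monic with integral coefficients independent of `ℓ`, with zeros of absolute value `p` (Weil
conjectures), and its Newton polygon lies above the Hodge polygon (Mazur, Berthelot, Ogus).
-/

set_option autoImplicit false

namespace Pool.Agent.Results.MP_97f789_ag.OnePrimeForDivisors

open Polynomial NumberField IsDedekindDomain Module
open Pool.Agent.H851.K3 (IsK3Type Semisimple tate orth)
open Pool.Agent.H851.TT (HasSkewEnd ScalarEnds)
open Pool.Agent.H851.ZD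
open Pool.Agent.NH56.HY (GK)

/-- **The jump rank, and the Tate conjecture for divisors at one prime number.** `ρ` is the action of the Galois
group of `K` on `V_ℓ = ℚ_ℓ ^ n`, `q` the form, `χ` the inverse of the cyclotomic character, `Pol v` the Frobenius
polynomials, `tate χ ρ` the space of the Tate classes and `orth q (tate χ ρ)` the transcendental part. -/
theorem result :
    -- (1) the jump rank and the Frobenius polynomials
    (∀ {K : Type} [Field K] [NumberField K] {ℓ : ℕ} [Fact ℓ.Prime] {n : Type} [Fintype n]
      [DecidableEq n] {q : Matrix n n ℚ_[ℓ]} {S : Finset ℕ} {χ : GK K →* ℚ_[ℓ]}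
      {Pol : HeightOneSpectrum (𝓞 K) → ℤ[X]} {ρ : GK K →* Matrix n n ℚ_[ℓ]},
      IsK3Type q S χ Pol ρ → Semisimple ρ →
      IsMinimalRank S Pol (jumpRank q ρ) ∧
      finrank ℚ_[ℓ] (tate χ ρ) ≤ jumpRank q ρ ∧
      (∃ j, Fintype.card n = jumpRank q ρ + 2 * j) ∧
      (ScalarEnds q χ ρ → jumpRank q ρ =
        finrank ℚ_[ℓ] (tate χ ρ) + finrank ℚ_[ℓ] (orth q (tate χ ρ)) % 2) ∧
      (HasSkewEnd q χ ρ → jumpRank q ρ = finrank ℚ_[ℓ] (tate χ ρ))) ∧
    -- (2) two prime numbers
    (∀ {K : Type} [Field K] [NumberField K] {ℓ ℓ' : ℕ} [Fact ℓ.Prime] [Fact ℓ'.Prime]
      {n n' : Type} [Fintype n] [DecidableEq n] [Fintype n'] [DecidableEq n']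
      {q : Matrix n n ℚ_[ℓ]} {S S' : Finset ℕ} {χ : GK K →* ℚ_[ℓ]}
      {Pol : HeightOneSpectrum (𝓞 K) → ℤ[X]} {ρ : GK K →* Matrix n n ℚ_[ℓ]}
      {q' : Matrix n' n' ℚ_[ℓ']} {χ' : GK K →* ℚ_[ℓ']} {ρ' : GK K →* Matrix n' n' ℚ_[ℓ']},
      IsK3Type q S χ Pol ρ → Semisimple ρ → IsK3Type q' S' χ' Pol ρ' →
      finrank ℚ_[ℓ'] (tate χ' ρ') ≤ jumpRank q ρ ∧
      (Semisimple ρ' → jumpRank q' ρ' = jumpRank q ρ)) ∧
    -- (3) the Tate conjecture for divisors at one prime number
    (∀ {K : Type} [Field K] [NumberField K] {n : Type} [Fintype n] [DecidableEq n] {r : ℕ}
      (X : K3System K n r) (ℓ : ℕ) [Fact ℓ.Prime], X.Tate ℓ → Semisimple (X.ρ ℓ) →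
      (∀ (ℓ' : ℕ) [Fact ℓ'.Prime], X.rank ℓ' ≤ jumpRank (X.q ℓ) (X.ρ ℓ)) ∧
      (ScalarEnds (X.q ℓ) (X.χ ℓ) (X.ρ ℓ) → ∀ (ℓ' : ℕ) [Fact ℓ'.Prime],
        X.rank ℓ' ≤ r + 1 ∧ (Even (Fintype.card n - r) → X.Tate ℓ')) ∧
      (HasSkewEnd (X.q ℓ) (X.χ ℓ) (X.ρ ℓ) → ∀ (ℓ' : ℕ) [Fact ℓ'.Prime], X.Tate ℓ') ∧
      (jumpRank (X.q ℓ) (X.ρ ℓ) = r → ∀ (ℓ' : ℕ) [Fact ℓ'.Prime], X.Tate ℓ')) ∧
    -- (4) over the rational numbers
    (∀ {n : Type} [Fintype n] [DecidableEq n] {r : ℕ} (X : K3System ℚ n r) (ℓ : ℕ)
      [Fact ℓ.Prime], X.Tate ℓ → Semisimple (X.ρ ℓ) ∧
      (jumpRank (X.q ℓ) (X.ρ ℓ) = r → ∀ (ℓ' : ℕ) [Fact ℓ'.Prime],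
        X.Tate ℓ' ∧ Semisimple (X.ρ ℓ'))) := by
  refine ⟨fun h hss => ⟨isMin h hss, tate_le_jump h hss, jump_parity h.nondeg, jump_scalar h hss,
    jump_skew h hss⟩, fun h hss h' => ⟨two_primes h hss h', two_primes' h hss h'⟩, ?_, ?_⟩
  · intro K _ _ n _ _ r X ℓ _ hT hss
    obtain ⟨h1, h2⟩ := X.transfer ℓ hss
    exact ⟨h1, X.transfer_scalar ℓ hT hss, fun hc => h2 (X.jump_of_skew ℓ hT hss hc), h2⟩
  · intro n _ _ r X ℓ _ hT
    have hss := X.semisimple ℓ hT
    refine ⟨hss, fun hr ℓ' _ => ?_⟩
    have h1 := (X.transfer ℓ hss).2 hr ℓ'
    exact ⟨h1, X.semisimple ℓ' h1⟩

end Pool.Agent.Results.MP_97f789_ag.OnePrimeForDivisors
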