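import Pool.Agent.H850.RG.Tor

/-!
# MP_97f789_ag: the Tate conjecture over infinite extensions with torsion Sylow subgroups

`F` is a field (for instance a number field) with separable closure `Ω` and `K` is an infinite
Galois extension of `F` such that the `ℓ`-Sylow subgroups of `Gal(K/F)` are torsion groups; for
instance the compositum of all extensions of `F` of degree at most `d` (all `ℓ`), or any Galois
extension all of whose finite Galois subextensions have degree prime to `ℓ`, such as the maximal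
pro-`p` extension for `p ≠ ℓ`. We prove that the semisimplicity of the cohomology, the potentially
stable subspaces and the potentially fixed classes, and the Tate conjecture for all finite
extensions are the same over `K` and over `F`. Semisimplicity is not assumed.
-/

set_option autoImplicit false
set_option linter.unusedSectionVars false

namespace Pool.Agent.Results.MP_97f789_ag.TorsionSylowFields

open MeasureTheory Topology

/-- A matrix over `ℤ_ℓ` viewed over `ℚ_ℓ`. -/
noncomputable def rat {ℓ : ℕ} [Fact ℓ.Prime] {N : ℕ} (g : GL (Fin N) ℤ_[ℓ]) :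
    Matrix (Fin N) (Fin N) ℚ_[ℓ] :=
  (g : Matrix (Fin N) (Fin N) ℤ_[ℓ]).map (algebraMap ℤ_[ℓ] ℚ_[ℓ])

/-- A set of matrices acts semisimply: every stable subspace has a stable complement. -/
def Semisimple {ℓ : ℕ} [Fact ℓ.Prime] {N : ℕ} (S : Set (Matrix (Fin N) (Fin N) ℚ_[ℓ])) : Prop :=
  ∀ W : Submodule ℚ_[ℓ] (Fin N → ℚ_[ℓ]), (∀ A ∈ S, ∀ x ∈ W, A.mulVec x ∈ W) →
    ∃ W' : Submodule ℚ_[ℓ] (Fin N → ℚ_[ℓ]), (∀ A ∈ S, ∀ x ∈ W', A.mulVec x ∈ W') ∧ IsCompl W W'

/-- The `ℓ`-adic cycle class map of a smooth projective variety `X` over `F` in one codimension: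
the continuous action `ρ` of the Galois group on a lattice `ℤ_ℓ ^ N` of the twisted cohomology
`V = ℚ_ℓ ^ N` (for divisors `V = H²(X, ℚ_ℓ(1))`), the group `C` of cycle classes over the separable
closure (for divisors the Neron-Severi group), on which Galois acts with open stabilisers, and the
equivariant cycle class map. -/
structure CycleMap (F Ω : Type) [Field F] [Field Ω] [Algebra F Ω] where
  ℓ : ℕ
  [prime : Fact ℓ.Prime]
  N : ℕ
  ρ : Gal(Ω/F) →* GL (Fin N) ℤ_[ℓ]
  cont : Continuous fun σ => (ρ σ : Matrix (Fin N) (Fin N) ℤ_[ℓ])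
  C : Type
  [group : AddCommGroup C]
  [galois : DistribMulAction Gal(Ω/F) C]
  isOpen_stabilizer : ∀ c : C, IsOpen (MulAction.stabilizer Gal(Ω/F) c : Set Gal(Ω/F))
  cl : C →+ (Fin N → ℚ_[ℓ])
  equivariant : ∀ (σ : Gal(Ω/F)) (c : C), (rat (ρ σ)).mulVec (cl c) = cl (σ • c)

attribute [instance] CycleMap.prime CycleMap.group CycleMap.galois

variable {F Ω : Type} [Field F] [Field Ω] [Algebra F Ω]

namespace CycleMap

variable (X : CycleMap F Ω)

/-- The cohomology group `V`. -/
abbrev V : Type := Fin X.N → ℚ_[X.ℓ]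

/-- The action of a Galois element on `V`. -/
noncomputable def act (σ : Gal(Ω/F)) (v : X.V) : X.V := (rat (X.ρ σ)).mulVec v

/-- The span of all cycle classes (over the separable closure). -/
noncomputable def Alg : Submodule ℚ_[X.ℓ] X.V := Submodule.span ℚ_[X.ℓ] (Set.range X.cl)

/-- The span of the classes of the cycles fixed by the Galois group of `L`. -/
noncomputable def AlgOver (L : IntermediateField F Ω) : Submodule ℚ_[X.ℓ] X.V :=
  Submodule.span ℚ_[X.ℓ] (X.cl '' {c | ∀ σ ∈ L.fixingSubgroup, σ • c = c})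

/-- The class `v` is fixed by the Galois group of `L`. -/
def FixedOver (L : IntermediateField F Ω) (v : X.V) : Prop :=
  ∀ σ ∈ L.fixingSubgroup, X.act σ v = v

/-- The Tate conjecture over `L`: the classes fixed by the Galois group of `L` are
`ℚ_ℓ`-combinations of classes of cycles fixed by the Galois group of `L`. -/
def TateOver (L : IntermediateField F Ω) : Prop :=
  ∀ v, X.FixedOver L v → v ∈ X.AlgOver L

/-- `V` is a semisimple representation of the Galois group of `L`. -/
def SemisimpleOver (L : IntermediateField F Ω) : Prop :=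
  Semisimple ((fun σ => rat (X.ρ σ)) '' (L.fixingSubgroup : Set Gal(Ω/F)))

/-- The Galois element `σ` maps the subset `S` of `V` to itself. -/
def Preserves (σ : Gal(Ω/F)) (S : Set X.V) : Prop := ∀ v ∈ S, X.act σ v ∈ S

/-- The subspace `W` is stable under the Galois group of `L`. -/
def StableOver (L : IntermediateField F Ω) (W : Submodule ℚ_[X.ℓ] X.V) : Prop :=
  ∀ σ ∈ L.fixingSubgroup, X.Preserves σ W

/-- The quotient `V / Alg` (for divisors `V_ℓ(Br)` of the geometric Brauer group) has no nonzero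
invariants under the Galois group of `L`. -/
def NoTranscendental (L : IntermediateField F Ω) : Prop :=
  ∀ v : X.V, (∀ σ ∈ L.fixingSubgroup, X.act σ v - v ∈ X.Alg) → v ∈ X.Alg

/-- The Tate conjecture over all finite extensions `K F'` of `K`. -/
def TateAbove (K : IntermediateField F Ω) : Prop :=
  ∀ F' : IntermediateField F Ω, FiniteDimensional F F' → X.TateOver (K ⊔ F')

/-- The quotient `V / Alg` has no nonzero invariants over any finite extension `K F'` of `K`. -/
def NoTranscendentalAbove (K : IntermediateField F Ω) : Prop :=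
  ∀ F' : IntermediateField F Ω, FiniteDimensional F F' → X.NoTranscendental (K ⊔ F')

/-- `v` is fixed by the Galois group of some finite extension `K F'` of `K`. -/
def FixedAbove (K : IntermediateField F Ω) (v : X.V) : Prop :=
  ∃ F' : IntermediateField F Ω, FiniteDimensional F F' ∧ X.FixedOver (K ⊔ F') v

/-- `W` is stable under the Galois group of some finite extension `K F'` of `K`. -/
def StableAbove (K : IntermediateField F Ω) (W : Submodule ℚ_[X.ℓ] X.V) : Prop :=
  ∃ F' : IntermediateField F Ω, FiniteDimensional F F' ∧ X.StableOver (K ⊔ F') W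

/-- Everything is the same over `K` and over `F`:
(1) `V` is semisimple over `K` if and only if it is semisimple over `F`;
(2) the subspaces stable over some finite extension of `K` are those stable over some finite
extension of `F`;
(3) the classes fixed over some finite extension of `K` are those fixed over some finite extension
of `F`;
(4) the Tate conjecture holds over all finite extensions of `K` if and only if it holds over all
finite extensions of `F`;
(5) `V / Alg` has no invariants over any finite extension of `K` if and only if it has no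
invariants over any finite extension of `F`. -/
def Transfer (K : IntermediateField F Ω) : Prop :=
  (X.SemisimpleOver K ↔ X.SemisimpleOver ⊥) ∧
  (∀ W, X.StableAbove K W ↔ X.StableAbove ⊥ W) ∧
  (∀ v, X.FixedAbove K v ↔ X.FixedAbove ⊥ v) ∧
  (X.TateAbove K ↔ X.TateAbove ⊥) ∧
  (X.NoTranscendentalAbove K ↔ X.NoTranscendentalAbove ⊥)

end CycleMap

/-- The `ℓ`-Sylow subgroups of the Galois group of `K` over `F` are torsion groups: for every `σ`
there is `a` such that on every finite subextension `L` of `K` some power of `σ` with exponent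
`ℓ ^ a r`, `r` prime to `ℓ`, is the identity. -/
def TorsionSylow (ℓ : ℕ) (K : IntermediateField F Ω) : Prop :=
  ∀ σ : Gal(Ω/F), ∃ a : ℕ, ∀ L : IntermediateField F Ω, FiniteDimensional F L → L ≤ K →
    ∃ r : ℕ, 0 < r ∧ ¬ ℓ ∣ r ∧ ∀ x ∈ L, (σ ^ (ℓ ^ a * r)) x = x

/-- The compositum of all extensions of `F` of degree at most `d`. -/
noncomputable def boundedDegree (F Ω : Type) [Field F] [Field Ω] [Algebra F Ω] (d : ℕ) :
    IntermediateField F Ω :=
  IntermediateField.adjoin F {x | (minpoly F x).natDegree ≤ d}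

section Proofs

variable [IsGalois F Ω]

open Pool.Agent.H850.TF Pool.Agent.H850.RG

theorem rat_eq (X : CycleMap F Ω) (σ : Gal(Ω/F)) :
    rat (X.ρ σ) = Pool.Agent.H850.TF.rat X.ρ σ := rfl

theorem exists_field {U : Subgroup Gal(Ω/F)} (hU : IsOpen (U : Set Gal(Ω/F))) :
    ∃ L : IntermediateField F Ω, FiniteDimensional F L ∧
      L.fixingSubgroup ≤ U := by
  have h1 : (U : Set Gal(Ω/F)) ∈ 𝓝 (1 : Gal(Ω/F)) := hU.mem_nhds U.one_mem
  rw [krullTopology_mem_nhds_one_iff] at h1
  exact h1

theorem semisimple_iff (X : CycleMap F Ω) (L : IntermediateField F Ω) :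
    X.SemisimpleOver L ↔ SS (stdr X.ρ) (L.fixingSubgroup : Set Gal(Ω/F)) := by
  have h1 : ∀ W : Submodule ℚ_[X.ℓ] X.V,
      (∀ A ∈ (fun σ => rat (X.ρ σ)) '' (L.fixingSubgroup : Set Gal(Ω/F)), ∀ x ∈ W,
        A.mulVec x ∈ W) ↔ ∀ σ ∈ (L.fixingSubgroup : Set Gal(Ω/F)), ∀ x ∈ W,
          stdr X.ρ σ x ∈ W := by
    intro W
    constructor
    · intro h σ hσ x hx
      exact h _ ⟨σ, hσ, rfl⟩ x hx
    · rintro h _ ⟨σ, hσ, rfl⟩ x hx
      exact h σ hσ x hx
  unfold CycleMap.SemisimpleOver Semisimple SS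
  simp only [h1]

theorem semisimple_bot (X : CycleMap F Ω) :
    X.SemisimpleOver ⊥ ↔ SS (stdr X.ρ) Set.univ := by
  rw [semisimple_iff, IntermediateField.fixingSubgroup_bot, Subgroup.coe_top]

/-- descent of combinations of cycle classes -/
theorem descent (X : CycleMap F Ω) {v : X.V} (hv : v ∈ X.Alg)
    (L : IntermediateField F Ω) (hL : X.FixedOver L v) :
    v ∈ X.AlgOver L := by
  classical
  change v ∈ Submodule.span ℚ_[X.ℓ] (X.cl '' {c | ∀ σ ∈ L.fixingSubgroup, σ • c = c})
  set H := L.fixingSubgroup with hH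
  rw [CycleMap.Alg, Finsupp.mem_span_range_iff_exists_finsupp] at hv
  obtain ⟨c, hc⟩ := hv
  set U : Subgroup Gal(Ω/F) := ⨅ e : c.support, MulAction.stabilizer Gal(Ω/F) (e : X.C) with hU
  have hUopen : IsOpen (U : Set Gal(Ω/F)) := by
    rw [hU, Subgroup.coe_iInf]
    exact isOpen_iInter_of_finite fun e => X.isOpen_stabilizer e
  have hUfix : ∀ e ∈ c.support, ∀ u ∈ U, u • e = e := by
    intro e he u hu
    rw [hU, Subgroup.mem_iInf] at hu
    exact hu ⟨e, he⟩
  have hfin : Finite (Gal(Ω/F) ⧸ U) := Subgroup.quotient_finite_of_isOpen U hUopen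
  have hidx : U.FiniteIndex := Subgroup.finiteIndex_of_finite_quotient
  have hfinQ : Finite (H ⧸ U.subgroupOf H) := inferInstance
  have : Fintype (H ⧸ U.subgroupOf H) := Fintype.ofFinite _
  set n : ℕ := Fintype.card (H ⧸ U.subgroupOf H) with hn
  have hn0 : n ≠ 0 := Fintype.card_ne_zero
  let av : X.C → X.C := fun e => ∑ q : H ⧸ U.subgroupOf H, (q.out : Gal(Ω/F)) • e
  have hav : ∀ e ∈ c.support, ∀ σ ∈ H, σ • av e = av e := by
    intro e he σ hσ
    change σ • (∑ q : H ⧸ U.subgroupOf H, (q.out : Gal(Ω/F)) • e) =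
      ∑ q : H ⧸ U.subgroupOf H, (q.out : Gal(Ω/F)) • e
    rw [Finset.smul_sum]
    have h2 : ∀ q : H ⧸ U.subgroupOf H, σ • (q.out : Gal(Ω/F)) • e =
        (((⟨σ, hσ⟩ : H) • q).out : Gal(Ω/F)) • e := by
      intro q
      have h3 : ((⟨σ, hσ⟩ : H) * q.out : H)⁻¹ * ((⟨σ, hσ⟩ : H) • q).out ∈ U.subgroupOf H := by
        rw [← QuotientGroup.eq, QuotientGroup.out_eq']
        have h4 : (q : H ⧸ U.subgroupOf H) = QuotientGroup.mk q.out := (QuotientGroup.out_eq' q).symm
        conv_rhs => rw [h4]
        rfl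
      have h5 := hUfix e he _ (Subgroup.mem_subgroupOf.1 h3)
      have h6 : (((⟨σ, hσ⟩ : H) • q).out : Gal(Ω/F)) = (σ * (q.out : Gal(Ω/F))) *
          ((((⟨σ, hσ⟩ : H) * q.out : H)⁻¹ * ((⟨σ, hσ⟩ : H) • q).out : H) : Gal(Ω/F)) := by
        push_cast
        group
      rw [h6, mul_smul, h5, mul_smul]
    simp_rw [h2]
    exact Equiv.sum_comp (MulAction.toPerm (⟨σ, hσ⟩ : H)) fun q : H ⧸ U.subgroupOf H =>
      (q.out : Gal(Ω/F)) • e
  have hconj : ∀ σ ∈ H, v = c.sum fun e a => a • X.cl (σ • e) := by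
    intro σ hσ
    have h1 : (rat (X.ρ σ)).mulVec v = c.sum fun e a => a • X.cl (σ • e) := by
      have h2 : (rat (X.ρ σ)).mulVec v = (rat (X.ρ σ)).mulVecLin v := rfl
      rw [h2, ← hc, Finsupp.sum, map_sum, Finsupp.sum]
      refine Finset.sum_congr rfl fun e _ => ?_
      rw [map_smul, Matrix.mulVecLin_apply, X.equivariant]
    rw [← h1]
    exact (hL σ hσ).symm
  have hn0' : (n : ℚ_[X.ℓ]) ≠ 0 := by exact_mod_cast hn0
  have hX2 : v = (n : ℚ_[X.ℓ])⁻¹ • ∑ q : H ⧸ U.subgroupOf H, v := by
    rw [Finset.sum_const, Finset.card_univ, ← hn, ← Nat.cast_smul_eq_nsmul ℚ_[X.ℓ], smul_smul,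
      inv_mul_cancel₀ hn0', one_smul]
  have hX3 : v = ∑ e ∈ c.support, ((n : ℚ_[X.ℓ])⁻¹ * c e) • X.cl (av e) := by
    rw [hX2]
    have h4 : ∑ q : H ⧸ U.subgroupOf H, v =
        ∑ q : H ⧸ U.subgroupOf H, c.sum fun e a => a • X.cl ((q.out : Gal(Ω/F)) • e) :=
      Finset.sum_congr rfl fun q _ => hconj _ q.out.2
    rw [h4]
    simp only [Finsupp.sum]
    rw [Finset.sum_comm, Finset.smul_sum]
    refine Finset.sum_congr rfl fun e _ => ?_
    rw [← Finset.smul_sum, smul_smul, ← map_sum]
  rw [hX3]
  refine Submodule.sum_mem _ fun e he => Submodule.smul_mem _ _ (Submodule.subset_span ?_)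
  exact ⟨av e, hav e he, rfl⟩

theorem stable_alg (X : CycleMap F Ω) (σ : Gal(Ω/F)) {v : X.V} (hv : v ∈ X.Alg) :
    X.act σ v ∈ X.Alg := by
  change (rat (X.ρ σ)).mulVecLin v ∈ X.Alg
  unfold CycleMap.Alg at hv ⊢
  induction hv using Submodule.span_induction with
  | mem x hx =>
    obtain ⟨c, rfl⟩ := hx
    rw [Matrix.mulVecLin_apply, X.equivariant]
    exact Submodule.subset_span ⟨_, rfl⟩
  | zero => rw [map_zero]; exact Submodule.zero_mem _
  | add x y _ _ h h' => rw [map_add]; exact Submodule.add_mem _ h h'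
  | smul a x _ h => rw [map_smul]; exact Submodule.smul_mem _ _ h

theorem algOver_le (X : CycleMap F Ω) (L : IntermediateField F Ω) : X.AlgOver L ≤ X.Alg :=
  Submodule.span_mono (Set.image_subset_range _ _)

theorem act_add (X : CycleMap F Ω) (σ : Gal(Ω/F)) (a b : X.V) :
    X.act σ (a + b) = X.act σ a + X.act σ b := Matrix.mulVec_add _ _ _

/-- the fundamental property: a polynomial function of the matrix coefficients which vanishes over
a finite extension of `K` vanishes on the small elements of the Galois group of `F` -/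
theorem vanish (X : CycleMap F Ω) (K : IntermediateField F Ω) (hK : TorsionSylow X.ℓ K)
    (F' : IntermediateField F Ω) (hF' : FiniteDimensional F F') {D : Gal(Ω/F) → ℚ_[X.ℓ]}
    (hD : D ∈ Pol X.ρ) (h0 : ∀ g ∈ (K ⊔ F').fixingSubgroup, D g = 0) :
    ∀ σ ∈ U1 X.ρ, D σ = 0 := by
  intro σ hσ
  obtain ⟨a, ha⟩ := hK σ
  have hfin : Finite (Gal(Ω/F) ⧸ F'.fixingSubgroup) :=
    Subgroup.quotient_finite_of_isOpen _ F'.fixingSubgroup_isOpen
  have hidx : F'.fixingSubgroup.index ≠ 0 := by
    have : F'.fixingSubgroup.FiniteIndex := Subgroup.finiteIndex_of_finite_quotient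
    exact this.index_ne_zero
  obtain ⟨n, hn, -, hσn⟩ := Subgroup.exists_pow_mem_of_index_ne_zero hidx σ
  obtain ⟨b, s, hs, hbs⟩ := Nat.exists_eq_pow_mul_and_not_dvd (show n ≠ 0 by omega) X.ℓ
    X.prime.out.ne_one
  let C : Option {L : IntermediateField F Ω // FiniteDimensional F L ∧ L ≤ K} →
      Subgroup Gal(Ω/F) := fun o => o.elim F'.fixingSubgroup fun L => L.1.fixingSubgroup
  refine vanish_of_tor X.cont hσ C ?_ (a + b) ?_ hD ?_
  · rintro (_ | ⟨L, hL, hLK⟩)
    · exact Subgroup.isClosed_of_isOpen _ F'.fixingSubgroup_isOpen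
    · exact Subgroup.isClosed_of_isOpen _ L.fixingSubgroup_isOpen
  · rintro (_ | ⟨L, hL, hLK⟩)
    · refine ⟨s, Nat.pos_of_ne_zero ?_, hs, ?_⟩
      · rintro rfl
        rw [mul_zero] at hbs
        omega
      · change σ ^ (X.ℓ ^ (a + b) * s) ∈ F'.fixingSubgroup
        rw [pow_add, mul_assoc, ← hbs, mul_comm, pow_mul]
        exact Subgroup.pow_mem _ hσn _
    · obtain ⟨r, hr0, hr, hfix⟩ := ha L hL hLK
      refine ⟨r, hr0, hr, ?_⟩
      change σ ^ (X.ℓ ^ (a + b) * r) ∈ L.fixingSubgroup
      have h1 : σ ^ (X.ℓ ^ a * r) ∈ L.fixingSubgroup :=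
        (IntermediateField.mem_fixingSubgroup_iff _ _).2 hfix
      have h2 : X.ℓ ^ (a + b) * r = X.ℓ ^ a * r * X.ℓ ^ b := by rw [pow_add]; ring
      rw [h2, pow_mul]
      exact Subgroup.pow_mem _ h1 _
  · intro g hg
    apply h0
    rw [IntermediateField.fixingSubgroup_sup]
    refine ⟨?_, hg none⟩
    change g ∈ K.fixingSubgroup
    rw [IntermediateField.mem_fixingSubgroup_iff]
    intro x hx
    have hint : IsIntegral F x := (inferInstance : Algebra.IsIntegral F Ω).isIntegral x
    have h1 := hg (some ⟨IntermediateField.adjoin F {x},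
      IntermediateField.adjoin.finiteDimensional hint, by
        rw [IntermediateField.adjoin_le_iff, Set.singleton_subset_iff]
        exact hx⟩)
    exact (IntermediateField.mem_fixingSubgroup_iff _ _).1 h1 x
      (IntermediateField.mem_adjoin_simple_self F x)

theorem act_functional_mem (X : CycleMap F Ω) (l : X.V →ₗ[ℚ_[X.ℓ]] ℚ_[X.ℓ]) (v : X.V) :
    (fun σ => l (X.act σ v)) ∈ Pol X.ρ := stdr_MC X.ρ l v

/-- a closed linear condition on the action transfers -/
theorem vanish_sub (X : CycleMap F Ω) (K : IntermediateField F Ω) (hK : TorsionSylow X.ℓ K)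
    (F' : IntermediateField F Ω) (hF' : FiniteDimensional F F') (W : Submodule ℚ_[X.ℓ] X.V)
    (v w : X.V) (h0 : ∀ g ∈ (K ⊔ F').fixingSubgroup, X.act g v - w ∈ W) :
    ∀ σ ∈ U1 X.ρ, X.act σ v - w ∈ W := by
  intro σ hσ
  by_contra hne
  obtain ⟨f, hf, hf0⟩ := Submodule.exists_le_ker_of_notMem hne
  have h1 : (fun σ => f (X.act σ v) - f w) ∈ Pol X.ρ :=
    (Pol X.ρ).sub_mem (act_functional_mem X f v) (const_mem X.ρ _)
  have h2 := vanish X K hK F' hF' h1 (fun g hg => by
    rw [← map_sub]
    exact hf0 (h0 g hg)) σ hσ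
  apply hf
  rw [map_sub]
  exact h2

theorem exists_small (X : CycleMap F Ω) : ∃ L : IntermediateField F Ω,
    FiniteDimensional F L ∧ L.fixingSubgroup ≤ U1 X.ρ := exists_field (isOpen_U1 X.ρ X.cont)

theorem sup_le_fixing (K F' : IntermediateField F Ω) :
    (K ⊔ F').fixingSubgroup ≤ F'.fixingSubgroup := IntermediateField.fixingSubgroup_le le_sup_right

theorem transfer (X : CycleMap F Ω) (K : IntermediateField F Ω) (hG : IsGalois F K)
    (hK : TorsionSylow X.ℓ K) : X.Transfer K := by
  obtain ⟨F₁, hF₁, hle₁⟩ := exists_small X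
  have hKn : K.fixingSubgroup.Normal := (InfiniteGalois.normal_iff_isGalois K).2 hG
  have hst : ∀ (F' : IntermediateField F Ω), FiniteDimensional F F' → ∀ W,
      X.StableOver (K ⊔ F') W → ∀ σ ∈ U1 X.ρ, ∀ v ∈ W, X.act σ v ∈ W := by
    intro F' hF' W hW σ hσ v hv
    have h1 := vanish_sub X K hK F' hF' W v 0 (fun g hg => by
      rw [sub_zero]
      exact hW g hg v hv) σ hσ
    rwa [sub_zero] at h1
  have hfx : ∀ (F' : IntermediateField F Ω), FiniteDimensional F F' → ∀ v,
      X.FixedOver (K ⊔ F') v → ∀ σ ∈ U1 X.ρ, X.act σ v = v := by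
    intro F' hF' v hv σ hσ
    have h1 := vanish_sub X K hK F' hF' ⊥ v v (fun g hg => by
      rw [hv g hg, sub_self]
      exact Submodule.zero_mem _) σ hσ
    exact sub_eq_zero.1 h1
  have hFA : ∀ v, X.FixedAbove K v ↔ X.FixedAbove ⊥ v := by
    intro v
    constructor
    · rintro ⟨F', hF', hv⟩
      exact ⟨F₁, hF₁, fun σ hσ => hfx F' hF' v hv σ (hle₁ (sup_le_fixing _ _ hσ))⟩
    · rintro ⟨F', hF', hv⟩
      exact ⟨F', hF', fun σ hσ => hv σ (by
        rw [bot_sup_eq]
        exact sup_le_fixing _ _ hσ)⟩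
  refine ⟨?_, ?_, hFA, ?_, ?_⟩
  · rw [semisimple_bot, semisimple_iff]
    constructor
    · intro h
      have hfin : Finite (Gal(Ω/F) ⧸ U1 X.ρ) :=
        Subgroup.quotient_finite_of_isOpen (U1 X.ρ) (isOpen_U1 X.ρ X.cont)
      have hidx : (U1 X.ρ).FiniteIndex := Subgroup.finiteIndex_of_finite_quotient
      refine SS.of_finiteIndex (H := U1 X.ρ) ?_
      intro W hW
      have h2 : SS (stdr X.ρ) ((K.fixingSubgroup ⊓ U1 X.ρ : Subgroup Gal(Ω/F)) :
          Set Gal(Ω/F)) := h.clifford' inf_le_left
      obtain ⟨W', hW', hc⟩ := h2 W (fun s hs x hx => hW s hs.2 x hx)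
      refine ⟨W', ?_, hc⟩
      intro s hs x hx
      refine hst F₁ hF₁ W' (fun g hg y hy => ?_) s hs x hx
      rw [IntermediateField.fixingSubgroup_sup] at hg
      exact hW' g ⟨hg.1, hle₁ hg.2⟩ y hy
    · intro h
      exact h.clifford _
  · intro W
    constructor
    · rintro ⟨F', hF', hW⟩
      exact ⟨F₁, hF₁, fun σ hσ v hv => hst F' hF' W hW σ (hle₁ (sup_le_fixing _ _ hσ)) v hv⟩
    · rintro ⟨F', hF', hW⟩
      exact ⟨F', hF', fun σ hσ => hW σ (by
        rw [bot_sup_eq]
        exact sup_le_fixing _ _ hσ)⟩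
  · constructor
    · intro hT F' hF' v hv
      refine descent X ?_ _ hv
      exact algOver_le X _ (hT F' hF' v fun τ hτ => hv τ (by
        rw [bot_sup_eq]
        exact sup_le_fixing _ _ hτ))
    · intro hT F' hF' v hv
      obtain ⟨F'', hF'', hv''⟩ := (hFA v).1 ⟨F', hF', hv⟩
      exact descent X (algOver_le X _ (hT F'' hF'' v hv'')) _ hv
  · constructor
    · intro hN F' hF' v hv
      exact hN F' hF' v fun τ hτ => hv τ (by
        rw [bot_sup_eq]
        exact sup_le_fixing _ _ hτ)
    · intro hN F' hF' v hv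
      refine hN F₁ hF₁ v fun τ hτ => ?_
      exact vanish_sub X K hK F' hF' X.Alg v v hv τ (hle₁ (sup_le_fixing _ _ hτ))

/-- an element of degree at most `d` is fixed by the power with exponent `d!` -/
theorem pow_factorial {d : ℕ} {x : Ω} (hx : (minpoly F x).natDegree ≤ d) (σ : Gal(Ω/F)) :
    (σ ^ d.factorial) x = x := by
  classical
  have hint : IsIntegral F x := (inferInstance : Algebra.IsIntegral F Ω).isIntegral x
  have hne : minpoly F x ≠ 0 := minpoly.ne_zero hint
  have hroot : ∀ i : ℕ, (σ ^ i) x ∈ (minpoly F x).rootSet Ω := by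
    intro i
    rw [Polynomial.mem_rootSet]
    refine ⟨hne, ?_⟩
    have h1 : Polynomial.aeval ((σ ^ i) x) (minpoly F x) =
        (σ ^ i) (Polynomial.aeval x (minpoly F x)) :=
      Polynomial.aeval_algHom_apply ((σ ^ i : Gal(Ω/F)) : Ω →ₐ[F] Ω) x (minpoly F x)
    rw [h1, minpoly.aeval, map_zero]
  have hcard : ((minpoly F x).rootSet Ω).ncard ≤ d :=
    (Polynomial.ncard_rootSet_le (minpoly F x) Ω).trans hx
  obtain ⟨i, hi, j, hj, hij, heq⟩ := Finset.exists_ne_map_eq_of_card_lt_of_maps_to
    (s := Finset.range (d + 1)) (t := ((minpoly F x).rootSet Ω).toFinset)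
    (f := fun i => (σ ^ i) x) (by
      rw [Finset.card_range, ← Set.ncard_eq_toFinset_card']
      omega) (by
      intro i _
      simpa using hroot i)
  wlog hlt : i < j generalizing i j
  · exact this j hj i hi (Ne.symm hij) heq.symm (by omega)
  have h1 : (σ ^ (j - i)) x = x := by
    have h2 : σ ^ j = σ ^ i * σ ^ (j - i) := by
      rw [← pow_add]
      congr 1
      omega
    have h3 : (σ ^ i) ((σ ^ (j - i)) x) = (σ ^ i) x := by
      rw [← AlgEquiv.mul_apply, ← h2]
      exact heq.symm
    exact (σ ^ i).injective h3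
  have h2 : j - i ∣ d.factorial := by
    apply Nat.dvd_factorial (by omega)
    have := Finset.mem_range.1 hj
    omega
  obtain ⟨q, hq⟩ := h2
  rw [hq, pow_mul]
  have h3 : ∀ q : ℕ, ((σ ^ (j - i)) ^ q) x = x := by
    intro q
    induction q with
    | zero => simp
    | succ q ih => rw [pow_succ, AlgEquiv.mul_apply, h1, ih]
  exact h3 q

theorem torsion_boundedDegree (d ℓ : ℕ) (hℓ : ℓ.Prime) :
    TorsionSylow ℓ (boundedDegree F Ω d) := by
  intro σ
  obtain ⟨a, r, hr, har⟩ := Nat.exists_eq_pow_mul_and_not_dvd (Nat.factorial_ne_zero d) ℓ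
    hℓ.ne_one
  refine ⟨a, fun L _ hL => ⟨r, Nat.pos_of_ne_zero ?_, hr, fun x hx => ?_⟩⟩
  · rintro rfl
    rw [mul_zero] at har
    exact Nat.factorial_ne_zero d har
  · rw [← har]
    have h1 : boundedDegree F Ω d ≤
        IntermediateField.fixedField (Subgroup.zpowers (σ ^ d.factorial)) := by
      rw [boundedDegree, IntermediateField.adjoin_le_iff]
      intro y hy
      rw [SetLike.mem_coe, IntermediateField.mem_fixedField_iff]
      intro g hg
      obtain ⟨n, rfl⟩ := Subgroup.mem_zpowers_iff.1 hg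
      have h2 : σ ^ d.factorial ∈ MulAction.stabilizer Gal(Ω/F) y := pow_factorial hy σ
      exact Subgroup.zpow_mem _ h2 n
    have h2 := h1 (hL hx)
    rw [IntermediateField.mem_fixedField_iff] at h2
    exact h2 _ (Subgroup.mem_zpowers _)

theorem isGalois_boundedDegree (d : ℕ) : IsGalois F (boundedDegree F Ω d) := by
  apply (InfiniteGalois.normal_iff_isGalois _).1
  refine ⟨fun h hh g => ?_⟩
  have h1 : boundedDegree F Ω d ≤
      IntermediateField.fixedField (Subgroup.zpowers (g * h * g⁻¹)) := by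
    rw [boundedDegree, IntermediateField.adjoin_le_iff]
    intro y hy
    rw [SetLike.mem_coe, IntermediateField.mem_fixedField_iff]
    intro g' hg'
    obtain ⟨n, rfl⟩ := Subgroup.mem_zpowers_iff.1 hg'
    have h2 : g * h * g⁻¹ ∈ MulAction.stabilizer Gal(Ω/F) y := by
      rw [MulAction.mem_stabilizer_iff]
      have h3 : g⁻¹ y ∈ boundedDegree F Ω d := by
        apply IntermediateField.subset_adjoin
        change (minpoly F (g⁻¹ y)).natDegree ≤ d
        have h4 : minpoly F (g⁻¹ y) = minpoly F y := minpoly.algEquiv_eq g⁻¹ y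
        rw [h4]
        exact hy
      have h4 := (IntermediateField.mem_fixingSubgroup_iff _ _).1 hh _ h3
      change (g * h * g⁻¹) y = y
      rw [AlgEquiv.mul_apply, AlgEquiv.mul_apply, h4]
      exact g.apply_symm_apply y
    exact Subgroup.zpow_mem _ h2 n
  rw [IntermediateField.mem_fixingSubgroup_iff]
  intro x hx
  have h2 := h1 hx
  rw [IntermediateField.mem_fixedField_iff] at h2
  exact h2 _ (Subgroup.mem_zpowers _)

theorem torsion_of_prime_to (ℓ : ℕ) (K : IntermediateField F Ω) [hG : IsGalois F K]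
    (h : ∀ L : IntermediateField F Ω, FiniteDimensional F L → IsGalois F L → L ≤ K →
      ¬ ℓ ∣ Module.finrank F L) : TorsionSylow ℓ K := by
  intro σ
  refine ⟨0, fun L hL hLK => ?_⟩
  have hn : Normal F (IntermediateField.normalClosure F L Ω) := inferInstance
  have hle : IntermediateField.normalClosure F L Ω ≤ K :=
    IntermediateField.normalClosure_le_iff_of_normal.2 hLK
  have hgal : IsGalois F (IntermediateField.normalClosure F L Ω) := ⟨⟩
  have hfd : FiniteDimensional F (IntermediateField.normalClosure F L Ω) := inferInstance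
  refine ⟨Module.finrank F (IntermediateField.normalClosure F L Ω), Module.finrank_pos,
    h _ hfd hgal hle, fun x hx => ?_⟩
  rw [pow_zero, one_mul]
  have hxn : x ∈ IntermediateField.normalClosure F L Ω :=
    IntermediateField.le_normalClosure L hx
  set τ := AlgEquiv.restrictNormalHom (IntermediateField.normalClosure F L Ω)
    (σ ^ Module.finrank F (IntermediateField.normalClosure F L Ω)) with hτ
  have h1 : τ = 1 := by
    rw [hτ, map_pow, ← IsGalois.card_aut_eq_finrank, pow_card_eq_one']
  have h2 := AlgEquiv.restrictNormal_commutes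
    (σ ^ Module.finrank F (IntermediateField.normalClosure F L Ω))
    (IntermediateField.normalClosure F L Ω) ⟨x, hxn⟩
  have h3 : (σ ^ Module.finrank F (IntermediateField.normalClosure F L Ω)) x =
      ((τ ⟨x, hxn⟩ : IntermediateField.normalClosure F L Ω) : Ω) := h2.symm
  rw [h3, h1]
  rfl

end Proofs

/-- **The Tate conjecture over infinite extensions with torsion Sylow subgroups.** Let `F` be a
field, for instance a number field, `X` a cycle class map of a variety over `F` and `K` an
infinite Galois extension of `F` such that the `ℓ`-Sylow subgroups of `Gal(K/F)` are torsion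
groups. Then semisimplicity, the potentially stable subspaces, the potentially fixed classes, the
Tate conjecture over all finite extensions and the vanishing of the invariants of `V / Alg` are the
same over `K` and over `F`. The hypothesis is satisfied
* for all primes `ℓ` by the compositum of all extensions of `F` of degree at most `d`,
* by the Galois extensions all of whose finite Galois subextensions have degree prime to `ℓ`. -/
theorem result [IsGalois F Ω] :
    (∀ (X : CycleMap F Ω) (K : IntermediateField F Ω), IsGalois F K → TorsionSylow X.ℓ K →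
      X.Transfer K) ∧
    (∀ (d ℓ : ℕ), ℓ.Prime →
      IsGalois F (boundedDegree F Ω d) ∧ TorsionSylow ℓ (boundedDegree F Ω d)) ∧
    (∀ (ℓ : ℕ) (K : IntermediateField F Ω), IsGalois F K →
      (∀ L : IntermediateField F Ω, FiniteDimensional F L → IsGalois F L → L ≤ K →
        ¬ ℓ ∣ Module.finrank F L) → TorsionSylow ℓ K) :=
  ⟨fun X K hG hK => transfer X K hG hK,
    fun d ℓ hℓ => ⟨isGalois_boundedDegree d, torsion_boundedDegree d ℓ hℓ⟩,
    fun ℓ K _ h => torsion_of_prime_to ℓ K h⟩

end Pool.Agent.Results.MP_97f789_ag.TorsionSylowFields
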